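import Mathlib

set_option autoImplicit false
set_option maxHeartbeats 4000000

/-!
# Natural boundaries on all affine discs of the ball for a function in `A^∞(B)`

Let `w_k` run through a countable dense subset of the closed unit ball of `ℂ^n`, every element
infinitely often. The function is `f(z) = ∑ e_k ⟨z, w_k⟩^(N_k)` with `N_k = (k!)²`, `e_k = exp(-k!)`.

Let `Φ(l) = a + l b` map the unit circle into the sphere, so `a ⊥ b`, `‖a‖² + ‖b‖² = 1`. If `f ∘ Φ`
extends holomorphically across the point `τ` of the circle, then `G(w) = f(Φ(τ (w + w²)/2))` is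
holomorphic in a disc `‖w‖ < 1 + δ`. Since `‖a‖ < 1`, the remainder `G - ∑_{k ≤ K}` of the series
is at most `θ^(N_{K+1}) / (1 - θ)` on a small circle and at most `C B^(N_K)` on a circle of radius
`> 1`. As `N_{K+1} / N_K → ∞`, the maximum principle for the remainder divided by `w^(L N_K)` shows
that the remainders are bounded at a point `w₀ > 1`; hence so are the terms
`e_k ⟨Φ(x τ), w_k⟩^(N_k)`, `x = (w₀ + w₀²)/2 > 1`. But `⟨Φ(x τ), Φ(τ)⟩ = 1 + (x - 1) ‖b‖² > 1`, and
the terms with `w_k` close to `Φ(τ)` are unbounded, a contradiction.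
-/

namespace Pool.Agent.Results.MP_ca9574_an.AffineDiscs
open Metric Set Filter Topology

/-- `ℂ^n` with its Euclidean norm -/
abbrev Cn (n : ℕ) := EuclideanSpace ℂ (Fin n)

/-- the exponents -/
def NN (k : ℕ) : ℕ := (Nat.factorial k) ^ 2

/-- the coefficients -/
noncomputable def ee (k : ℕ) : ℝ := Real.exp (-((Nat.factorial k : ℕ) : ℝ))

lemma ee_pos (k : ℕ) : 0 < ee k := Real.exp_pos _

lemma ee_le_one (k : ℕ) : ee k ≤ 1 := by
  unfold ee
  rw [Real.exp_le_one_iff]
  have : (0 : ℝ) ≤ ((Nat.factorial k : ℕ) : ℝ) := Nat.cast_nonneg _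
  linarith

lemma summable_ee (m : ℕ) : Summable (fun k => ee k * (NN k : ℝ) ^ m) := by
  have h1 : Summable (fun k : ℕ => ((2 * m).factorial * 2 ^ (2 * m) : ℝ) * (Real.exp (-1 / 2)) ^ k) := by
    apply Summable.mul_left
    apply summable_geometric_of_lt_one (Real.exp_pos _).le
    rw [Real.exp_lt_one_iff]
    norm_num
  refine Summable.of_nonneg_of_le (fun k => ?_) (fun k => ?_) h1
  · have := ee_pos k; positivity
  · unfold ee NN
    set x : ℝ := ((Nat.factorial k : ℕ) : ℝ) with hx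
    have hx0 : 0 ≤ x := Nat.cast_nonneg _
    have hxk : (k : ℝ) ≤ x := by rw [hx]; exact_mod_cast Nat.self_le_factorial k
    have h2 := Real.pow_div_factorial_le_exp (x / 2) (by positivity) (2 * m)
    rw [div_le_iff₀ (by positivity)] at h2
    have h3 : x ^ (2 * m) ≤ (2 * m).factorial * 2 ^ (2 * m) * Real.exp (x / 2) := by
      have : x ^ (2 * m) = (x / 2) ^ (2 * m) * 2 ^ (2 * m) := by
        rw [← mul_pow]; congr 1; ring
      rw [this]
      have h4 : (0 : ℝ) < 2 ^ (2 * m) := by positivity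
      nlinarith
    have h5 : Real.exp (-x) * Real.exp (x / 2) ≤ (Real.exp (-1 / 2)) ^ k := by
      rw [← Real.exp_add, ← Real.exp_nat_mul]
      apply Real.exp_le_exp.2
      nlinarith
    have h6 : (((Nat.factorial k) ^ 2 : ℕ) : ℝ) ^ m = x ^ (2 * m) := by
      rw [hx]; push_cast; rw [← pow_mul]
    rw [h6]
    calc Real.exp (-x) * x ^ (2 * m) ≤ Real.exp (-x) * ((2 * m).factorial * 2 ^ (2 * m) * Real.exp (x / 2)) := by
          gcongr
      _ = ((2 * m).factorial * 2 ^ (2 * m) : ℝ) * (Real.exp (-x) * Real.exp (x / 2)) := by ring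
      _ ≤ _ := by gcongr

variable {n : ℕ}

/-- the terms of the series -/
noncomputable def ff (w : ℕ → Cn n) (k : ℕ) (z : Cn n) : ℂ :=
  (ee k : ℂ) * (innerSL ℂ (w k) z) ^ (NN k)

/-- the function -/
noncomputable def fF (w : ℕ → Cn n) (z : Cn n) : ℂ := ∑' k, ff w k z

lemma norm_iteratedDeriv_pow_le (N m : ℕ) (x : ℂ) (hx : ‖x‖ ≤ 1) :
    ‖iteratedFDeriv ℂ m (fun y : ℂ => y ^ N) x‖ ≤ (N : ℝ) ^ m := by
  rw [norm_iteratedFDeriv_eq_norm_iteratedDeriv, iteratedDeriv_eq_iterate, iter_deriv_pow, norm_mul, norm_pow]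
  have h1 : ‖∏ i ∈ Finset.range m, ((N : ℂ) - i)‖ ≤ (N : ℝ) ^ m := by
    rcases le_or_gt m N with h | h
    · rw [norm_prod]
      calc ∏ i ∈ Finset.range m, ‖(N : ℂ) - i‖ ≤ ∏ _i ∈ Finset.range m, (N : ℝ) := by
            apply Finset.prod_le_prod (fun _ _ => norm_nonneg _)
            intro i hi
            rw [Finset.mem_range] at hi
            have h2 : (N : ℂ) - i = ((N - i : ℕ) : ℂ) := by
              rw [Nat.cast_sub (by omega)]
            rw [h2, Complex.norm_natCast]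
            exact_mod_cast Nat.sub_le _ _
        _ = (N : ℝ) ^ m := by rw [Finset.prod_const, Finset.card_range]
    · have : ∏ i ∈ Finset.range m, ((N : ℂ) - i) = 0 := by
        apply Finset.prod_eq_zero (Finset.mem_range.2 h)
        simp
      rw [this, norm_zero]
      positivity
  calc _ ≤ (N : ℝ) ^ m * 1 := by
        apply mul_le_mul h1 (pow_le_one₀ (norm_nonneg _) hx) (by positivity) (by positivity)
    _ = _ := mul_one _

lemma ff_contDiff (w : ℕ → Cn n) (k : ℕ) : ContDiff ℂ ⊤ (ff w k) := by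
  unfold ff
  exact contDiff_const.mul ((ContinuousLinearMap.contDiff _).pow _)

lemma inner_le_one (w : ℕ → Cn n) (hw : ∀ k, ‖w k‖ ≤ 1) (k : ℕ) (z : Cn n) :
    ‖innerSL ℂ (w k) z‖ ≤ ‖z‖ := by
  rw [innerSL_apply_apply]
  calc ‖inner ℂ (w k) z‖ ≤ ‖w k‖ * ‖z‖ := norm_inner_le_norm _ _
    _ ≤ 1 * ‖z‖ := by gcongr; exact hw k
    _ = _ := one_mul _

lemma ff_deriv_le (w : ℕ → Cn n) (hw : ∀ k, ‖w k‖ ≤ 1) (m k : ℕ) (z : Cn n) (hz : ‖z‖ ≤ 1) :
    ‖iteratedFDeriv ℂ m (ff w k) z‖ ≤ ee k * (NN k : ℝ) ^ m := by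
  have h1 : ff w k = fun z => (ee k : ℂ) • ((fun y : ℂ => y ^ (NN k)) ∘ (innerSL ℂ (w k))) z := by
    funext z; simp [ff]
  have hc : ContDiff ℂ m (fun y : ℂ => y ^ (NN k)) := contDiff_id.pow _
  rw [h1, iteratedFDeriv_const_smul_apply' ((hc.comp (ContinuousLinearMap.contDiff _)).contDiffAt)]
  rw [norm_smul, ContinuousLinearMap.iteratedFDeriv_comp_right _ hc _ le_rfl]
  have h2 := ContinuousMultilinearMap.norm_compContinuousLinearMap_le
    (iteratedFDeriv ℂ m (fun y : ℂ => y ^ (NN k)) (innerSL ℂ (w k) z)) (fun _ : Fin m => innerSL ℂ (w k))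
  have h3 := norm_iteratedDeriv_pow_le (NN k) m (innerSL ℂ (w k) z) ((inner_le_one w hw k z).trans hz)
  have h4 : ‖(ee k : ℂ)‖ = ee k := by
    rw [Complex.norm_real, Real.norm_of_nonneg (ee_pos k).le]
  rw [h4]
  apply mul_le_mul_of_nonneg_left _ (ee_pos k).le
  refine h2.trans ?_
  have h5 : ∏ _i : Fin m, ‖innerSL ℂ (w k)‖ ≤ 1 := by
    rw [innerSL_apply_norm]
    rw [Finset.prod_const]
    exact pow_le_one₀ (norm_nonneg _) (hw k)
  calc _ ≤ (NN k : ℝ) ^ m * 1 := by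
        apply mul_le_mul h3 h5 (Finset.prod_nonneg fun _ _ => norm_nonneg _) (by positivity)
    _ = _ := mul_one _

lemma fF_iter (w : ℕ → Cn n) (hw : ∀ k, ‖w k‖ ≤ 1) (m : ℕ) :
    ∀ z ∈ ball (0 : Cn n) 1, iteratedFDeriv ℂ m (fF w) z = ∑' k, iteratedFDeriv ℂ m (ff w k) z := by
  induction m with
  | zero =>
    intro z _
    simp_rw [iteratedFDeriv_zero_eq_comp]
    exact (continuousMultilinearCurryFin0 ℂ (Cn n) ℂ).symm.toContinuousLinearEquiv.map_tsum
  | succ m IH =>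
    intro z hz
    have hpre : IsPreconnected (ball (0 : Cn n) 1) := (convex_ball _ _).isPreconnected
    have h0 : (0 : Cn n) ∈ ball (0 : Cn n) 1 := mem_ball_self one_pos
    have h1 : HasFDerivAt (fun y => ∑' k, iteratedFDeriv ℂ m (ff w k) y)
        (∑' k, fderiv ℂ (iteratedFDeriv ℂ m (ff w k)) z) z := by
      refine hasFDerivAt_tsum_of_isPreconnected (u := fun k => ee k * (NN k : ℝ) ^ (m + 1)) (s := ball (0 : Cn n) 1)
        (x₀ := 0) (summable_ee (m + 1)) isOpen_ball hpre ?_ ?_ h0 ?_ hz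
      · intro k x _
        exact ((ff_contDiff w k).differentiable_iteratedFDeriv (by exact_mod_cast WithTop.coe_lt_top _)).differentiableAt.hasFDerivAt
      · intro k x hx
        rw [mem_ball_zero_iff] at hx
        rw [fderiv_iteratedFDeriv, Function.comp_apply, LinearIsometryEquiv.norm_map]
        exact ff_deriv_le w hw (m + 1) k x hx.le
      · exact Summable.of_norm_bounded (summable_ee m) (fun k => ff_deriv_le w hw m k 0 (by simp))
    have h2 : iteratedFDeriv ℂ m (fF w) =ᶠ[𝓝 z] fun y => ∑' k, iteratedFDeriv ℂ m (ff w k) y :=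
      Filter.eventuallyEq_of_mem (isOpen_ball.mem_nhds hz) IH
    have h3 : fderiv ℂ (iteratedFDeriv ℂ m (fF w)) z = ∑' k, fderiv ℂ (iteratedFDeriv ℂ m (ff w k)) z := by
      rw [h2.fderiv_eq]
      exact h1.fderiv
    simp_rw [iteratedFDeriv_succ_eq_comp_left, Function.comp_apply]
    rw [h3]
    exact (continuousMultilinearCurryLeftEquiv ℂ (fun _ : Fin (m + 1) => Cn n) ℂ).symm.toContinuousLinearEquiv.map_tsum

lemma NN_mono : Monotone NN := by
  intro a b hab
  exact Nat.pow_le_pow_left (Nat.factorial_le hab) 2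

lemma NN_ge (k : ℕ) : k ≤ NN k := by
  unfold NN
  have := Nat.self_le_factorial k
  have h2 : Nat.factorial k ≤ (Nat.factorial k) ^ 2 := Nat.le_self_pow (by norm_num) _
  omega

lemma NN_succ (K L : ℕ) (h : L ≤ K + 1) : L * NN K ≤ NN (K + 1) := by
  unfold NN
  rw [Nat.factorial_succ, mul_pow]
  apply Nat.mul_le_mul_right
  nlinarith

lemma NN_add (k K : ℕ) : NN (K + 1) + k ≤ NN (k + (K + 1)) := by
  induction k with
  | zero => simp
  | succ k ih =>
    have h1 : NN (k + (K + 1)) + 1 ≤ NN (k + 1 + (K + 1)) := by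
      have e : k + 1 + (K + 1) = (k + (K + 1)) + 1 := by ring
      rw [e]
      have h2 := NN_succ (k + (K + 1)) 2 (by omega)
      have h3 : 1 ≤ NN (k + (K + 1)) := by
        unfold NN
        exact Nat.one_le_pow _ _ (Nat.factorial_pos _)
      omega
    omega

/-- the polynomial `(w + w²) / 2` -/
noncomputable def ph (w : ℂ) : ℂ := (w + w ^ 2) / 2

lemma norm_ph_le' (w : ℂ) : ‖ph w‖ ≤ (‖w‖ + ‖w‖ ^ 2) / 2 := by
  unfold ph
  rw [norm_div]
  have h2 : ‖(2 : ℂ)‖ = 2 := by simp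
  rw [h2]
  gcongr
  refine (norm_add_le _ _).trans ?_
  rw [norm_pow]

lemma norm_ph_le (w : ℂ) (hw : ‖w‖ ≤ 1) : ‖ph w‖ ≤ ‖w‖ := by
  have := norm_ph_le' w
  have h0 := norm_nonneg w
  nlinarith

lemma norm_ph_lt (w : ℂ) (hw : ‖w‖ ≤ 1) (h1 : w ≠ 1) : ‖ph w‖ < 1 := by
  rcases lt_or_eq_of_le hw with h | h
  · exact (norm_ph_le w hw).trans_lt h
  · have e1 : ph w = w * ((1 + w) / 2) := by unfold ph; ring
    rw [e1, norm_mul, h, one_mul, norm_div]
    have h2 : ‖(2 : ℂ)‖ = 2 := by simp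
    rw [h2, div_lt_one (by norm_num)]
    have h3 : ‖1 + w‖ ^ 2 < 2 ^ 2 := by
      rw [← Complex.normSq_eq_norm_sq, Complex.normSq_apply]
      have h4 : w.re ^ 2 + w.im ^ 2 = 1 := by
        have : Complex.normSq w = 1 := by rw [Complex.normSq_eq_norm_sq, h]; norm_num
        rw [Complex.normSq_apply] at this
        nlinarith
      have h5 : w.re < 1 := by
        by_contra hc
        push Not at hc
        have h6 : w.im = 0 := by nlinarith [sq_nonneg w.im]
        have h7 : w.re = 1 := by nlinarith [sq_nonneg w.im, sq_nonneg (w.re - 1)]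
        apply h1
        apply Complex.ext <;> simp [h6, h7]
      simp only [Complex.add_re, Complex.one_re, Complex.add_im, Complex.one_im]
      nlinarith
    exact lt_of_pow_lt_pow_left₀ 2 (by norm_num) h3

lemma continuous_ph : Continuous ph := by unfold ph; fun_prop

lemma differentiable_ph : Differentiable ℂ ph := by unfold ph; fun_prop

theorem key (al be : ℕ → ℂ) (A : ℝ) (hA0 : 0 ≤ A) (hA : A < 1) (hal : ∀ k, ‖al k‖ ≤ A)
    (hbe : ∀ k, ‖be k‖ ≤ 1) (g : ℂ → ℂ) (hg : DifferentiableOn ℂ g (ball 0 1))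
    (hgs : ∀ l ∈ ball (0 : ℂ) 1, g l = ∑' k, (ee k : ℂ) * (al k + be k * l) ^ (NN k))
    (τ : ℂ) (hτ : ‖τ‖ = 1) (c : ℂ) (r : ℝ) (h : ℂ → ℂ) (hτD : τ ∈ ball c r)
    (hh : DifferentiableOn ℂ h (ball c r)) (hgh : ∀ l ∈ ball c r, ‖l‖ < 1 → h l = g l) :
    ∃ x : ℝ, 1 < x ∧ ∃ C : ℝ, ∃ K0 : ℕ, ∀ k ≥ K0, ee k * ‖al k + be k * (x * τ)‖ ^ (NN k) ≤ C := by
  classical
  -- a neighbourhood of the closed disc
  obtain ⟨O1, hO1⟩ : ∃ O1 : Set ℂ, O1 = {w | ‖ph w‖ < 1} := ⟨_, rfl⟩
  obtain ⟨O2, hO2⟩ : ∃ O2 : Set ℂ, O2 = {w | τ * ph w ∈ ball c r} := ⟨_, rfl⟩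
  have hO1o : IsOpen O1 := by rw [hO1]; exact isOpen_lt (continuous_ph.norm) continuous_const
  have hO2o : IsOpen O2 := by
    rw [hO2]; exact isOpen_ball.preimage (continuous_const.mul continuous_ph)
  have hsub : closedBall (0 : ℂ) 1 ⊆ O1 ∪ O2 := by
    intro w hw
    rw [mem_closedBall_zero_iff] at hw
    by_cases h1 : w = 1
    · right
      rw [hO2, mem_ofPred_eq, h1]
      have : ph 1 = 1 := by unfold ph; norm_num
      rw [this, mul_one]
      exact hτD
    · left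
      rw [hO1]
      exact norm_ph_lt w hw h1
  obtain ⟨δ, hδ, hδs⟩ := (isCompact_closedBall (0 : ℂ) 1).exists_thickening_subset_open (hO1o.union hO2o) hsub
  rw [thickening_closedBall hδ zero_le_one] at hδs
  -- the function G
  obtain ⟨G, hG⟩ : ∃ G : ℂ → ℂ, G = fun w => if ‖ph w‖ < 1 then g (τ * ph w) else h (τ * ph w) := ⟨_, rfl⟩
  have hG1 : ∀ w ∈ O1, G w = g (τ * ph w) := by
    intro w hw
    rw [hO1, mem_ofPred_eq] at hw
    rw [hG]; simp only [hw, if_true]
  have hG2 : ∀ w ∈ O2, G w = h (τ * ph w) := by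
    intro w hw
    by_cases h1 : ‖ph w‖ < 1
    · rw [hG1 w (by rw [hO1]; exact h1)]
      rw [hO2, mem_ofPred_eq] at hw
      rw [hgh _ hw (by rw [norm_mul, hτ, one_mul]; exact h1)]
    · rw [hG]; simp only [h1, if_false]
  have hGd : ∀ w ∈ O1 ∪ O2, DifferentiableAt ℂ G w := by
    intro w hw
    rcases hw with hw | hw
    · have h1 : G =ᶠ[𝓝 w] fun w => g (τ * ph w) := Filter.eventuallyEq_of_mem (hO1o.mem_nhds hw) hG1
      rw [h1.differentiableAt_iff]
      have h2 : DifferentiableAt ℂ g (τ * ph w) := by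
        apply hg.differentiableAt (isOpen_ball.mem_nhds _)
        rw [mem_ball_zero_iff, norm_mul, hτ, one_mul]
        rw [hO1] at hw; exact hw
      exact h2.comp w ((differentiable_ph w).const_mul τ)
    · have h1 : G =ᶠ[𝓝 w] fun w => h (τ * ph w) := Filter.eventuallyEq_of_mem (hO2o.mem_nhds hw) hG2
      rw [h1.differentiableAt_iff]
      have h2 : DifferentiableAt ℂ h (τ * ph w) := by
        apply hh.differentiableAt (isOpen_ball.mem_nhds _)
        rw [hO2] at hw; exact hw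
      exact h2.comp w ((differentiable_ph w).const_mul τ)
  -- the numbers
  obtain ⟨R, hR⟩ : ∃ R : ℝ, R = 1 + δ / 2 := ⟨_, rfl⟩
  obtain ⟨w0, hw0⟩ : ∃ w0 : ℝ, w0 = 1 + δ / 4 := ⟨_, rfl⟩
  have hw01 : 1 < w0 := by rw [hw0]; linarith
  have hw0R : w0 < R := by rw [hw0, hR]; linarith
  have hR0 : 0 < R := by linarith
  obtain ⟨ρ, hρ⟩ : ∃ ρ : ℝ, ρ = (1 - A) / 2 := ⟨_, rfl⟩
  have hρ0 : 0 < ρ := by rw [hρ]; linarith
  have hρ1 : ρ < 1 := by rw [hρ]; linarith
  obtain ⟨θ, hθ⟩ : ∃ θ : ℝ, θ = A + ρ := ⟨_, rfl⟩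
  have hθ0 : 0 < θ := by rw [hθ]; linarith
  have hθ1 : θ < 1 := by rw [hθ, hρ]; linarith
  have hin : ∀ w : ℂ, ‖w‖ ≤ R → w ∈ O1 ∪ O2 := by
    intro w hw
    apply hδs
    rw [mem_ball_zero_iff]
    rw [hR] at hw; linarith
  obtain ⟨q, hq⟩ : ∃ q : ℕ → ℂ → ℂ, q = fun k w => (ee k : ℂ) * (al k + be k * (τ * ph w)) ^ (NN k) := ⟨_, rfl⟩
  have hqd : ∀ k, Differentiable ℂ (q k) := by
    intro k
    rw [hq]
    exact ((((differentiable_ph.const_mul τ).const_mul (be k)).const_add (al k)).pow _).const_mul _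
  obtain ⟨T, hT⟩ : ∃ T : ℕ → ℂ → ℂ, T = fun K w => G w - ∑ k ∈ Finset.range (K + 1), q k w := ⟨_, rfl⟩
  have hTd : ∀ K, ∀ w : ℂ, ‖w‖ ≤ R → DifferentiableAt ℂ (T K) w := by
    intro K w hw
    rw [hT]
    apply (hGd w (hin w hw)).sub
    apply DifferentiableAt.fun_sum
    intro k _
    exact (hqd k) w
  -- estimate on the small disc
  have hqs : ∀ k, ∀ w : ℂ, ‖w‖ ≤ ρ → ‖q k w‖ ≤ θ ^ (NN k) := by
    intro k w hw
    rw [hq]
    simp only
    rw [norm_mul, Complex.norm_real, Real.norm_of_nonneg (ee_pos k).le, norm_pow]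
    have h1 : ‖al k + be k * (τ * ph w)‖ ≤ θ := by
      refine (norm_add_le _ _).trans ?_
      rw [norm_mul, norm_mul, hτ, one_mul, hθ]
      have h2 := norm_ph_le w (by linarith)
      have h3 := hal k
      have h4 := hbe k
      have h5 : ‖be k‖ * ‖ph w‖ ≤ 1 * ρ := mul_le_mul h4 (h2.trans hw) (norm_nonneg _) zero_le_one
      linarith
    calc ee k * ‖al k + be k * (τ * ph w)‖ ^ (NN k) ≤ 1 * θ ^ (NN k) := by
          apply mul_le_mul (ee_le_one k) (pow_le_pow_left₀ (norm_nonneg _) h1 _) (by positivity) zero_le_one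
      _ = _ := one_mul _
  have hgeo : Summable (fun k : ℕ => θ ^ k) := summable_geometric_of_lt_one hθ0.le hθ1
  have hTs : ∀ K, ∀ w : ℂ, ‖w‖ ≤ ρ → ‖T K w‖ ≤ θ ^ (NN (K + 1)) * (1 - θ)⁻¹ := by
    intro K w hw
    have hsum : Summable (fun k => q k w) := by
      apply Summable.of_norm_bounded hgeo
      intro k
      refine (hqs k w hw).trans ?_
      exact pow_le_pow_of_le_one hθ0.le hθ1.le (NN_ge k)
    have hwO : w ∈ O1 := by
      rw [hO1, mem_ofPred_eq]
      exact (norm_ph_le w (by linarith)).trans_lt (by linarith)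
    have h1 : T K w = ∑' k, q (k + (K + 1)) w := by
      rw [hT]
      simp only
      rw [hG1 w hwO, hgs _ (by rw [mem_ball_zero_iff, norm_mul, hτ, one_mul]; rw [hO1] at hwO; exact hwO)]
      have h2 := hsum.sum_add_tsum_nat_add (K + 1)
      have h3 : (∑' k, (ee k : ℂ) * (al k + be k * (τ * ph w)) ^ (NN k)) = ∑' k, q k w := by rw [hq]
      rw [h3, ← h2]
      ring
    rw [h1]
    have h4 : ∀ k, ‖q (k + (K + 1)) w‖ ≤ θ ^ (NN (K + 1)) * θ ^ k := by
      intro k
      refine (hqs _ w hw).trans ?_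
      rw [← pow_add]
      exact pow_le_pow_of_le_one hθ0.le hθ1.le (NN_add k K)
    have h5 := tsum_of_norm_bounded ((hgeo.mul_left (θ ^ (NN (K + 1)))).hasSum) h4
    rw [tsum_mul_left, tsum_geometric_of_lt_one hθ0.le hθ1] at h5
    exact h5
  -- estimate on the large circle
  obtain ⟨CG, hCG⟩ : ∃ CG : ℝ, ∀ w : ℂ, ‖w‖ ≤ R → ‖G w‖ ≤ CG := by
    have h1 : ContinuousOn G (closedBall 0 R) := by
      intro w hw
      rw [mem_closedBall_zero_iff] at hw
      exact (hGd w (hin w hw)).continuousAt.continuousWithinAt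
    obtain ⟨C, hC⟩ := (isCompact_closedBall (0 : ℂ) R).exists_bound_of_continuousOn h1
    exact ⟨C, fun w hw => hC w (by rw [mem_closedBall_zero_iff]; exact hw)⟩
  have hCG0 : 0 ≤ CG := (norm_nonneg _).trans (hCG 0 (by rw [norm_zero]; exact hR0.le))
  obtain ⟨B, hB⟩ : ∃ B : ℝ, B = 1 + (R + R ^ 2) / 2 := ⟨_, rfl⟩
  have hB1 : 1 ≤ B := by rw [hB]; have : 0 ≤ (R + R ^ 2) / 2 := by positivity
                         linarith
  have hqb : ∀ k, ∀ w : ℂ, ‖w‖ ≤ R → ‖q k w‖ ≤ B ^ (NN k) := by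
    intro k w hw
    rw [hq]
    simp only
    rw [norm_mul, Complex.norm_real, Real.norm_of_nonneg (ee_pos k).le, norm_pow]
    have h1 : ‖al k + be k * (τ * ph w)‖ ≤ B := by
      refine (norm_add_le _ _).trans ?_
      rw [norm_mul, norm_mul, hτ, one_mul, hB]
      have h2 := norm_ph_le' w
      have h6 : (‖w‖ + ‖w‖ ^ 2) / 2 ≤ (R + R ^ 2) / 2 := by
        have h0 := norm_nonneg w
        gcongr
      have h3 := hal k
      have h4 := hbe k
      have h5 : ‖be k‖ * ‖ph w‖ ≤ 1 * ((R + R ^ 2) / 2) := mul_le_mul h4 (h2.trans h6) (norm_nonneg _) zero_le_one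
      linarith
    calc ee k * ‖al k + be k * (τ * ph w)‖ ^ (NN k) ≤ 1 * B ^ (NN k) := by
          apply mul_le_mul (ee_le_one k) (pow_le_pow_left₀ (norm_nonneg _) h1 _) (by positivity) zero_le_one
      _ = _ := one_mul _
  have hTb : ∀ K, ∀ w : ℂ, ‖w‖ ≤ R → ‖T K w‖ ≤ (CG + 1) * (2 * B) ^ (NN K) := by
    intro K w hw
    rw [hT]
    simp only
    refine (norm_sub_le _ _).trans ?_
    have h1 : ‖∑ k ∈ Finset.range (K + 1), q k w‖ ≤ (K + 1) * B ^ (NN K) := by
      refine (norm_sum_le _ _).trans ?_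
      calc ∑ k ∈ Finset.range (K + 1), ‖q k w‖ ≤ ∑ _k ∈ Finset.range (K + 1), B ^ (NN K) := by
            apply Finset.sum_le_sum
            intro k hk
            rw [Finset.mem_range] at hk
            refine (hqb k w hw).trans ?_
            exact pow_le_pow_right₀ hB1 (NN_mono (by omega))
        _ = _ := by rw [Finset.sum_const, Finset.card_range, nsmul_eq_mul]; push_cast; ring
    have h2 : ((K : ℝ) + 1) ≤ 2 ^ (NN K) := by
      have h3 : K + 1 ≤ 2 ^ (NN K) := by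
        have h4 : K < 2 ^ K := Nat.lt_two_pow_self
        have h5 : 2 ^ K ≤ 2 ^ (NN K) := Nat.pow_le_pow_right (by norm_num) (NN_ge K)
        omega
      exact_mod_cast h3
    have h6 : (1 : ℝ) ≤ (2 * B) ^ (NN K) := one_le_pow₀ (by linarith)
    have h7 : ((K : ℝ) + 1) * B ^ (NN K) ≤ (2 * B) ^ (NN K) := by
      rw [mul_pow]
      gcongr
    have h8 := hCG w hw
    nlinarith
  -- the constants L, K0
  have hRw : 1 < R / w0 := by rw [one_lt_div (by linarith)]; exact hw0R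
  obtain ⟨L, hL⟩ := pow_unbounded_of_one_lt (2 * B) hRw
  obtain ⟨K0, hK0⟩ := exists_pow_lt_of_lt_one (show 0 < 1 / (w0 / ρ) ^ L by positivity) hθ1
  obtain ⟨C1, hC1⟩ : ∃ C1 : ℝ, C1 = max (1 - θ)⁻¹ (CG + 1) := ⟨_, rfl⟩
  have hC1a : (1 - θ)⁻¹ ≤ C1 := by rw [hC1]; exact le_max_left _ _
  have hC1b : CG + 1 ≤ C1 := by rw [hC1]; exact le_max_right _ _
  have hC10 : 0 < C1 := by linarith
  have hmain : ∀ K ≥ K0, ‖T K (w0 : ℂ)‖ ≤ C1 := by
    intro K hK
    obtain ⟨M, hM⟩ : ∃ M, M = L * NN K := ⟨_, rfl⟩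
    obtain ⟨U, hU⟩ : ∃ U : Set ℂ, U = {w | ρ < ‖w‖ ∧ ‖w‖ < R} := ⟨_, rfl⟩
    have hUo : IsOpen U := by
      rw [hU]
      exact (isOpen_lt continuous_const continuous_norm).inter (isOpen_lt continuous_norm continuous_const)
    have hUc : closure U ⊆ {w | ρ ≤ ‖w‖ ∧ ‖w‖ ≤ R} := by
      apply closure_minimal
      · intro w hw
        rw [hU] at hw
        exact ⟨hw.1.le, hw.2.le⟩
      · exact (isClosed_le continuous_const continuous_norm).inter (isClosed_le continuous_norm continuous_const)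
    have hUb : Bornology.IsBounded U := by
      apply (isBounded_closedBall (x := (0 : ℂ)) (r := R)).subset
      intro w hw
      rw [hU] at hw
      rw [mem_closedBall_zero_iff]
      exact hw.2.le
    have hd : DiffContOnCl ℂ (fun w => T K w / w ^ M) U := by
      apply DifferentiableOn.diffContOnCl
      intro w hw
      have hw' := hUc hw
      have hwne : w ≠ 0 := by
        intro h0
        have := hw'.1
        rw [h0, norm_zero] at this
        linarith
      exact ((hTd K w hw'.2).div (differentiableAt_id.pow M) (pow_ne_zero M hwne)).differentiableWithinAt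
    have hfr : ∀ z ∈ frontier U, ‖T K z / z ^ M‖ ≤ C1 / w0 ^ M := by
      intro z hz
      rw [hUo.frontier_eq] at hz
      have hz1 := hUc hz.1
      have hz2 : ‖z‖ = ρ ∨ ‖z‖ = R := by
        by_contra hcon
        push Not at hcon
        apply hz.2
        rw [hU]
        exact ⟨lt_of_le_of_ne hz1.1 (Ne.symm hcon.1), lt_of_le_of_ne hz1.2 hcon.2⟩
      rw [norm_div, norm_pow]
      rcases hz2 with hz2 | hz2
      · rw [hz2, div_le_div_iff₀ (by positivity) (by positivity)]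
        have h1 := hTs K z hz2.le
        have h2 : θ ^ (NN (K + 1)) * (w0 / ρ) ^ M ≤ 1 := by
          have h3 : θ ^ (NN (K + 1)) ≤ θ ^ (K0 * NN K) :=
            pow_le_pow_of_le_one hθ0.le hθ1.le (NN_succ K K0 (by omega))
          have h4 : θ ^ (K0 * NN K) * (w0 / ρ) ^ M = (θ ^ K0 * (w0 / ρ) ^ L) ^ (NN K) := by
            rw [hM, mul_pow, ← pow_mul, ← pow_mul]
          have h5 : θ ^ K0 * (w0 / ρ) ^ L ≤ 1 := by
            rw [lt_div_iff₀ (by positivity)] at hK0
            exact hK0.le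
          calc θ ^ (NN (K + 1)) * (w0 / ρ) ^ M ≤ θ ^ (K0 * NN K) * (w0 / ρ) ^ M := by gcongr
            _ = _ := h4
            _ ≤ 1 := pow_le_one₀ (by positivity) h5
        rw [div_pow, mul_div_assoc', div_le_one (by positivity)] at h2
        calc ‖T K z‖ * w0 ^ M ≤ (θ ^ (NN (K + 1)) * (1 - θ)⁻¹) * w0 ^ M := by gcongr
          _ = (1 - θ)⁻¹ * (θ ^ (NN (K + 1)) * w0 ^ M) := by ring
          _ ≤ C1 * ρ ^ M := by
              apply mul_le_mul hC1a h2 (by positivity) hC10.le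
      · rw [hz2, div_le_div_iff₀ (by positivity) (by positivity)]
        have h1 := hTb K z hz2.le
        have h2 : (2 * B) ^ (NN K) * w0 ^ M ≤ R ^ M := by
          have h3 : 2 * B * w0 ^ L ≤ R ^ L := by
            rw [div_pow, lt_div_iff₀ (by positivity)] at hL
            exact hL.le
          calc (2 * B) ^ (NN K) * w0 ^ M = (2 * B * w0 ^ L) ^ (NN K) := by
                rw [hM, mul_pow (2 * B) (w0 ^ L), ← pow_mul]
            _ ≤ (R ^ L) ^ (NN K) := pow_le_pow_left₀ (by positivity) h3 _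
            _ = R ^ M := by rw [hM, ← pow_mul]
        calc ‖T K z‖ * w0 ^ M ≤ ((CG + 1) * (2 * B) ^ (NN K)) * w0 ^ M := by gcongr
          _ = (CG + 1) * ((2 * B) ^ (NN K) * w0 ^ M) := by ring
          _ ≤ C1 * R ^ M := by
              apply mul_le_mul hC1b h2 (by positivity) hC10.le
    have hw0n : ‖(w0 : ℂ)‖ = w0 := by rw [Complex.norm_real, Real.norm_of_nonneg (by linarith)]
    have hw0U : (w0 : ℂ) ∈ closure U := by
      apply subset_closure
      rw [hU, mem_ofPred_eq, hw0n]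
      constructor <;> linarith
    have h1 := Complex.norm_le_of_forall_mem_frontier_norm_le hUb hd hfr hw0U
    rw [norm_div, norm_pow, hw0n, div_le_div_iff_of_pos_right (by positivity)] at h1
    exact h1
  -- conclusion
  refine ⟨(w0 + w0 ^ 2) / 2, by nlinarith, 2 * C1, K0 + 1, ?_⟩
  intro k hk
  have h1 : q k (w0 : ℂ) = T (k - 1) w0 - T k w0 := by
    rw [hT]
    simp only
    have e : k - 1 + 1 = k := by omega
    rw [e, Finset.sum_range_succ]
    ring
  have h2 : ‖q k (w0 : ℂ)‖ ≤ 2 * C1 := by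
    rw [h1]
    refine (norm_sub_le _ _).trans ?_
    have h3 := hmain (k - 1) (by omega)
    have h4 := hmain k (by omega)
    linarith
  have h5 : ‖q k (w0 : ℂ)‖ = ee k * ‖al k + be k * ((((w0 + w0 ^ 2) / 2 : ℝ) : ℂ) * τ)‖ ^ (NN k) := by
    rw [hq]
    simp only
    rw [norm_mul, Complex.norm_real, Real.norm_of_nonneg (ee_pos k).le, norm_pow]
    congr 3
    unfold ph
    push_cast
    ring
  rw [← h5]
  exact h2


lemma ee_big (κ : ℝ) (hκ : 1 < κ) (C : ℝ) : ∃ K1 : ℕ, ∀ k ≥ K1, C < ee k * κ ^ (NN k) := by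
  have hl : 0 < Real.log κ := Real.log_pos hκ
  obtain ⟨K1, hK1⟩ := exists_nat_ge (max (2 / Real.log κ) C)
  refine ⟨K1, fun k hk => ?_⟩
  have h1 : (K1 : ℝ) ≤ k := by exact_mod_cast hk
  set x : ℝ := ((Nat.factorial k : ℕ) : ℝ) with hx
  have hxk : (k : ℝ) ≤ x := by rw [hx]; exact_mod_cast Nat.self_le_factorial k
  have hx0 : 0 ≤ x := Nat.cast_nonneg _
  have h2 : 2 / Real.log κ ≤ x := (le_max_left _ _).trans (hK1.trans (h1.trans hxk))
  have h3 : C ≤ x := (le_max_right _ _).trans (hK1.trans (h1.trans hxk))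
  have h4 : ee k * κ ^ (NN k) = Real.exp (x ^ 2 * Real.log κ - x) := by
    unfold ee NN
    rw [← hx, sub_eq_neg_add, Real.exp_add]
    congr 1
    rw [mul_comm, Real.exp_mul, Real.exp_log (by linarith)]
    rw [hx]
    rw [← Nat.cast_pow, Real.rpow_natCast]
  rw [h4]
  have h5 : 2 ≤ x * Real.log κ := by
    rw [div_le_iff₀ hl] at h2; exact h2
  have h6 : x ≤ x ^ 2 * Real.log κ - x := by nlinarith
  calc C ≤ x := h3
    _ < Real.exp x := by have := Real.add_one_le_exp x; linarith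
    _ ≤ _ := Real.exp_le_exp.2 h6

/-- `f` is in `A^∞(B)`: it is continuous on the closed unit ball, holomorphic in the open unit ball,
and for every `m` its `m`-th complex derivative (the `m`-linear form of all the partial derivatives
of order `m`) extends continuously from the open to the closed unit ball. -/
def IsAInfty {n : ℕ} (f : Cn n → ℂ) : Prop :=
  ContinuousOn f (closedBall 0 1) ∧ DifferentiableOn ℂ f (ball 0 1) ∧
  ∀ m : ℕ, ∃ g : Cn n → ContinuousMultilinearMap ℂ (fun _ : Fin m => Cn n) ℂ,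
    ContinuousOn g (closedBall 0 1) ∧ ∀ z ∈ ball (0 : Cn n) 1, iteratedFDeriv ℂ m f z = g z

/-- the unit circle is the natural boundary of the function `g` on the open unit disc: for no point
`τ` of the circle there are an open disc `ball c r` containing `τ` and a holomorphic function `h` on
it which is equal to `g` on the intersection with the open unit disc. -/
def HasNaturalBoundary (g : ℂ → ℂ) : Prop :=
  ∀ τ : ℂ, ‖τ‖ = 1 → ¬ ∃ (c : ℂ) (r : ℝ) (h : ℂ → ℂ), τ ∈ ball c r ∧ DifferentiableOn ℂ h (ball c r) ∧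
    ∀ l ∈ ball c r, ‖l‖ < 1 → h l = g l

/-- property (NB) -/
def NB {n : ℕ} (f : Cn n → ℂ) : Prop :=
  ∀ a b : Cn n, b ≠ 0 → (∀ l : ℂ, ‖l‖ = 1 → ‖a + l • b‖ = 1) →
    HasNaturalBoundary (fun l : ℂ => f (a + l • b))

lemma ff_le (w : ℕ → Cn n) (hw : ∀ k, ‖w k‖ ≤ 1) (k : ℕ) (z : Cn n) (hz : ‖z‖ ≤ 1) :
    ‖ff w k z‖ ≤ ee k := by
  have := ff_deriv_le w hw 0 k z hz
  rwa [norm_iteratedFDeriv_zero, pow_zero, mul_one] at this

lemma summable_ee0 : Summable ee := by
  have := summable_ee 0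
  simpa using this

lemma fF_AInfty (w : ℕ → Cn n) (hw : ∀ k, ‖w k‖ ≤ 1) : IsAInfty (fF w) := by
  refine ⟨?_, ?_, ?_⟩
  · unfold fF
    refine continuousOn_tsum (u := ee) (fun k => (ff_contDiff w k).continuous.continuousOn) summable_ee0 ?_
    intro k z hz
    rw [mem_closedBall_zero_iff] at hz
    exact ff_le w hw k z hz
  · intro z hz
    have hpre : IsPreconnected (ball (0 : Cn n) 1) := (convex_ball _ _).isPreconnected
    have h0 : (0 : Cn n) ∈ ball (0 : Cn n) 1 := mem_ball_self one_pos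
    have h1 : HasFDerivAt (fun y => ∑' k, ff w k y) (∑' k, fderiv ℂ (ff w k) z) z := by
      refine hasFDerivAt_tsum_of_isPreconnected (u := fun k => ee k * (NN k : ℝ) ^ 1) (s := ball (0 : Cn n) 1)
        (x₀ := 0) (summable_ee 1) isOpen_ball hpre ?_ ?_ h0 ?_ hz
      · intro k x _
        exact ((ff_contDiff w k).differentiable (by simp)).differentiableAt.hasFDerivAt
      · intro k x hx
        rw [mem_ball_zero_iff] at hx
        have := ff_deriv_le w hw 1 k x hx.le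
        rwa [norm_iteratedFDeriv_one] at this
      · exact Summable.of_norm_bounded summable_ee0 (fun k => ff_le w hw k 0 (by simp))
    exact h1.differentiableAt.differentiableWithinAt
  · intro m
    refine ⟨fun z => ∑' k, iteratedFDeriv ℂ m (ff w k) z, ?_, fF_iter w hw m⟩
    refine continuousOn_tsum (u := fun k => ee k * (NN k : ℝ) ^ m) (fun k => ?_) (summable_ee m) ?_
    · exact ((ff_contDiff w k).continuous_iteratedFDeriv (by exact_mod_cast le_top)).continuousOn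
    · intro k z hz
      rw [mem_closedBall_zero_iff] at hz
      exact ff_deriv_le w hw m k z hz

theorem result : ∀ n : ℕ, 1 < n → ∃ f : Cn n → ℂ, IsAInfty f ∧ NB f := by
  intro n _
  have : Nonempty (closedBall (0 : Cn n) 1) := ⟨⟨0, by simp⟩⟩
  obtain ⟨v, hv⟩ : ∃ v : ℕ → closedBall (0 : Cn n) 1, DenseRange v :=
    ⟨_, TopologicalSpace.denseRange_denseSeq _⟩
  obtain ⟨w, hwdef⟩ : ∃ w : ℕ → Cn n, w = fun k => (v (Nat.unpair k).1 : Cn n) := ⟨_, rfl⟩
  have hw : ∀ k, ‖w k‖ ≤ 1 := by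
    intro k
    rw [hwdef]
    have := (v (Nat.unpair k).1).2
    rwa [mem_closedBall_zero_iff] at this
  have hA := fF_AInfty w hw
  refine ⟨fF w, hA, ?_⟩
  intro a b hb hab τ hτ hcon
  obtain ⟨c, r, h, hτD, hh, hgh⟩ := hcon
  -- orthogonality
  have hexp : ∀ l : ℂ, ‖a + l • b‖ ^ 2 = ‖a‖ ^ 2 + 2 * (l * inner ℂ a b).re + ‖l‖ ^ 2 * ‖b‖ ^ 2 := by
    intro l
    rw [norm_add_sq (𝕜 := ℂ), inner_smul_right, norm_smul, mul_pow]
    rfl
  have h1 := hexp 1
  have h2 := hexp (-1)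
  have h3 := hexp Complex.I
  have h4 := hexp (-Complex.I)
  rw [hab 1 (by simp)] at h1
  rw [hab (-1) (by simp)] at h2
  rw [hab Complex.I (by simp)] at h3
  rw [hab (-Complex.I) (by simp)] at h4
  simp only [one_mul, norm_one, norm_neg, Complex.norm_I, neg_mul, Complex.neg_re, Complex.mul_re,
    Complex.I_re, Complex.I_im, zero_mul, zero_sub, one_pow] at h1 h2 h3 h4
  have hre : (inner ℂ a b : ℂ).re = 0 := by linarith
  have him : (inner ℂ a b : ℂ).im = 0 := by linarith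
  have hin : (inner ℂ a b : ℂ) = 0 := Complex.ext hre him
  have hsum : ‖a‖ ^ 2 + ‖b‖ ^ 2 = 1 := by rw [hre] at h1; linarith
  have hb0 : 0 < ‖b‖ := norm_pos_iff.2 hb
  have ha1 : ‖a‖ < 1 := by nlinarith [norm_nonneg a]
  have hb1 : ‖b‖ ≤ 1 := by nlinarith [norm_nonneg a]
  have hnorm : ∀ l : ℂ, ‖a + l • b‖ ^ 2 = ‖a‖ ^ 2 + ‖l‖ ^ 2 * ‖b‖ ^ 2 := by
    intro l; rw [hexp l, hin]; simp
  have hmaps : ∀ l : ℂ, ‖l‖ < 1 → ‖a + l • b‖ < 1 := by
    intro l hl
    have h5 := hnorm l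
    have h6 : ‖l‖ ^ 2 < 1 := by nlinarith [norm_nonneg l]
    have h7 : ‖a + l • b‖ ^ 2 < 1 := by nlinarith [mul_pos hb0 hb0]
    nlinarith [norm_nonneg (a + l • b)]
  obtain ⟨x, hx, C, K0, hC⟩ := key (fun k => inner ℂ (w k) a) (fun k => inner ℂ (w k) b) ‖a‖ (norm_nonneg _) ha1
    (fun k => (norm_inner_le_norm _ _).trans (by
      calc ‖w k‖ * ‖a‖ ≤ 1 * ‖a‖ := by gcongr; exact hw k
        _ = _ := one_mul _))
    (fun k => (norm_inner_le_norm _ _).trans (by
      calc ‖w k‖ * ‖b‖ ≤ 1 * 1 := mul_le_mul (hw k) hb1 (norm_nonneg _) zero_le_one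
        _ = _ := one_mul _))
    (fun l : ℂ => fF w (a + l • b))
    (by
      intro l hl
      rw [mem_ball_zero_iff] at hl
      have h5 : DifferentiableAt ℂ (fF w) (a + l • b) :=
        hA.2.1.differentiableAt (isOpen_ball.mem_nhds (by rw [mem_ball_zero_iff]; exact hmaps l hl))
      have h6 : DifferentiableAt ℂ (fun l : ℂ => a + l • b) l := by fun_prop
      exact (h5.comp l h6).differentiableWithinAt)
    (by
      intro l _
      unfold fF ff
      apply tsum_congr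
      intro k
      rw [innerSL_apply_apply, inner_add_right, inner_smul_right]
      congr 2
      ring)
    τ hτ c r h hτD hh hgh
  -- the point outside
  obtain ⟨zs, hzs⟩ : ∃ zs : Cn n, zs = a + ((x : ℂ) * τ) • b := ⟨_, rfl⟩
  obtain ⟨y, hy⟩ : ∃ y : Cn n, y = a + τ • b := ⟨_, rfl⟩
  have hyn : ‖y‖ = 1 := by rw [hy]; exact hab τ hτ
  have hyz : ‖(inner ℂ y zs : ℂ)‖ = ‖a‖ ^ 2 + x * ‖b‖ ^ 2 := by
    have h5 : (inner ℂ y zs : ℂ) = ((‖a‖ ^ 2 + x * ‖b‖ ^ 2 : ℝ) : ℂ) := by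
      rw [hy, hzs, inner_add_left, inner_add_right, inner_add_right, inner_smul_left, inner_smul_right,
        inner_smul_left, inner_smul_right, hin]
      have h6 : (inner ℂ b a : ℂ) = 0 := by rw [← inner_conj_symm, hin]; simp
      rw [h6, inner_self_eq_norm_sq_to_K, inner_self_eq_norm_sq_to_K]
      have h7 : (starRingEnd ℂ) τ * τ = 1 := by
        rw [mul_comm, Complex.mul_conj, Complex.normSq_eq_norm_sq, hτ]; norm_num
      push_cast
      have h8 : (starRingEnd ℂ) τ * ((x : ℂ) * τ * ((‖b‖ : ℂ)) ^ 2) = (x : ℂ) * ((starRingEnd ℂ) τ * τ) * (‖b‖ : ℂ) ^ 2 := by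
        ring
      simp only [Complex.coe_algebraMap, mul_zero, add_zero, zero_add]
      rw [h8, h7]
      ring
    rw [h5, Complex.norm_real, Real.norm_of_nonneg (by positivity)]
  obtain ⟨κ, hκdef⟩ : ∃ κ : ℝ, κ = (1 + (‖a‖ ^ 2 + x * ‖b‖ ^ 2)) / 2 := ⟨_, rfl⟩
  have hκ0 : 1 < ‖a‖ ^ 2 + x * ‖b‖ ^ 2 := by nlinarith [mul_pos hb0 hb0]
  have hκ1 : 1 < κ := by rw [hκdef]; linarith
  have hκ2 : κ < ‖a‖ ^ 2 + x * ‖b‖ ^ 2 := by rw [hκdef]; linarith
  obtain ⟨j, hj⟩ : ∃ j : ℕ, κ < ‖(inner ℂ (v j : Cn n) zs : ℂ)‖ := by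
    have hopen : IsOpen {u : closedBall (0 : Cn n) 1 | κ < ‖(inner ℂ (u : Cn n) zs : ℂ)‖} := by
      apply isOpen_lt continuous_const
      exact (continuous_subtype_val.inner continuous_const).norm
    have hne : {u : closedBall (0 : Cn n) 1 | κ < ‖(inner ℂ (u : Cn n) zs : ℂ)‖}.Nonempty := by
      refine ⟨⟨y, by rw [mem_closedBall_zero_iff]; exact hyn.le⟩, ?_⟩
      change κ < ‖(inner ℂ y zs : ℂ)‖
      rw [hyz]; exact hκ2
    obtain ⟨j, hj⟩ := hv.exists_mem_open hopen hne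
    exact ⟨j, hj⟩
  obtain ⟨K1, hK1⟩ := ee_big κ hκ1 C
  obtain ⟨k, hk⟩ : ∃ k, k = Nat.pair j (max K0 K1) := ⟨_, rfl⟩
  have hkge : max K0 K1 ≤ k := by rw [hk]; exact Nat.right_le_pair _ _
  have hwk : w k = (v j : Cn n) := by
    rw [hwdef, hk]
    simp only [Nat.unpair_pair]
  have h5 := hC k ((le_max_left _ _).trans hkge)
  have h6 := hK1 k ((le_max_right _ _).trans hkge)
  have h7 : κ < ‖inner ℂ (w k) a + inner ℂ (w k) b * ((x : ℂ) * τ)‖ := by
    have h8 : (inner ℂ (w k) a + inner ℂ (w k) b * ((x : ℂ) * τ) : ℂ) = inner ℂ (v j : Cn n) zs := by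
      rw [hzs, inner_add_right, inner_smul_right, hwk]
      ring
    rw [h8]; exact hj
  have h9 : ee k * κ ^ (NN k) ≤ ee k * ‖inner ℂ (w k) a + inner ℂ (w k) b * ((x : ℂ) * τ)‖ ^ (NN k) := by
    apply mul_le_mul_of_nonneg_left _ (ee_pos k).le
    exact pow_le_pow_left₀ (by linarith) h7.le _
  linarith

end Pool.Agent.Results.MP_ca9574_an.AffineDiscs
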